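import Pool.Agent.H76.PS.Defs2

/-!
# Job F1: extension of the homomorphisms of the decomposition group to finite `2`-groups
-/

set_option autoImplicit false

namespace Pool.Agent.K7.H22.PS

open Pool.Agent.H76.PS
open Pool.Agent.Y715.Gi (QB KK GK)
open Pool.Agent.Z384 (II DD DDs Fld)

/-- the element `z ^ a` -/
def ez {P : Type} [Group P] (z : P) (a : ZMod 2) : P := if a = 0 then 1 else z

lemma ez_zero {P : Type} [Group P] (z : P) : ez z 0 = 1 := if_pos rfl

lemma ez_add {P : Type} [Group P] {z : P} (hz : z * z = 1) (a b : ZMod 2) :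
    ez z (a + b) = ez z a * ez z b := by
  have h : ∀ x : ZMod 2, x = 0 ∨ x = 1 := by decide
  rcases h a with rfl | rfl <;> rcases h b with rfl | rfl
  · simp [ez]
  · simp [ez]
  · simp [ez]
  · have : (1 : ZMod 2) + 1 = 0 := by decide
    rw [this]
    simp [ez, hz]

lemma ez_comm {P : Type} [Group P] {z : P} (hz : ∀ x, z * x = x * z) (a : ZMod 2) (x : P) :
    ez z a * x = x * ez z a := by
  unfold ez
  split_ifs
  · simp
  · exact hz x

variable {G : Type} [Group G] [TopologicalSpace G] [IsTopologicalGroup G]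

/-- two characters of an open subgroup, trivial on `N`, which agree on a dense subgroup -/
lemma eq_of_dense {D N U : Subgroup G} (hU : IsOpen (U : Set G)) (hNU : N ≤ U)
    (H2 : ∀ U : Subgroup G, IsOpen (U : Set G) → N ≤ U → ∀ g, ∃ δ ∈ D, δ⁻¹ * g ∈ U)
    {ψ : U → ZMod 2} (hψ : ψ ∈ HS U) (hN : ∀ σ : U, (σ : G) ∈ N → ψ σ = 0)
    (hD : ∀ σ : U, (σ : G) ∈ D → ψ σ = 0) (σ : U) : ψ σ = 0 := by
  obtain ⟨hl, hm⟩ := hψ
  have h1 : ψ 1 = 0 := by
    have := hm 1 1
    rw [mul_one] at this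
    exact (left_eq_add.1 this)
  have hinv : ∀ x, ψ x⁻¹ = ψ x := by
    intro x
    have := hm x x⁻¹
    rw [mul_inv_cancel, h1] at this
    have h2 : ∀ a b : ZMod 2, 0 = a + b → b = a := by decide
    exact h2 _ _ this
  let V : Subgroup U :=
    { carrier := {σ | ψ σ = 0}
      mul_mem' := by
        intro a b ha hb
        show ψ (a * b) = 0
        rw [hm, show ψ a = 0 from ha, show ψ b = 0 from hb, add_zero]
      one_mem' := h1
      inv_mem' := by
        intro a ha
        show ψ a⁻¹ = 0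
        rw [hinv]
        exact ha }
  have hVo : IsOpen (V : Set U) := hl {0}
  have hV' : IsOpen ((V.map U.subtype : Subgroup G) : Set G) := by
    rw [Subgroup.coe_map]
    exact hU.isOpenEmbedding_subtypeVal.isOpenMap _ hVo
  have hNV : N ≤ V.map U.subtype := fun n hn => ⟨⟨n, hNU hn⟩, hN _ hn, rfl⟩
  obtain ⟨δ, hδ, ⟨v, hv, hvδ⟩⟩ := H2 _ hV' hNV (σ : G)
  have hvδ' : (v : G) = δ⁻¹ * σ := hvδ
  have hδU : δ ∈ U := by
    have : δ = σ * (v : G)⁻¹ := by rw [hvδ']; group
    rw [this]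
    exact U.mul_mem σ.2 (U.inv_mem v.2)
  have h3 : σ = ⟨δ, hδU⟩ * v := by
    apply Subtype.ext
    show (σ : G) = δ * v
    rw [hvδ']
    group
  rw [h3, hm, hD ⟨δ, hδU⟩ hδ, show ψ v = 0 from hv, add_zero]

/-- **Extension of homomorphisms to finite `2`-groups.** -/
theorem ext_hom (D N : Subgroup G) [hNn : N.Normal]
    (H1 : ∀ U : Subgroup G, IsOpen (U : Set G) → N ≤ U → ∀ φ ∈ HS (U ⊓ D : Subgroup G),
      ∃ φ' ∈ HS U, (∀ σ : U, (σ : G) ∈ N → φ' σ = 0) ∧
        ∀ (σ : G) (h : σ ∈ U) (h' : σ ∈ U ⊓ D), φ' ⟨σ, h⟩ = φ ⟨σ, h'⟩)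
    (H2 : ∀ U : Subgroup G, IsOpen (U : Set G) → N ≤ U → ∀ g, ∃ δ ∈ D, δ⁻¹ * g ∈ U) :
    ∀ (k : ℕ) (P : Type) [Group P] [Finite P], IsPGroup 2 P → Nat.card P ≤ k →
      ∀ r : D →* P, IsLocallyConstant (fun δ => r δ) →
      ∃ R : G →* P, IsLocallyConstant (fun σ => R σ) ∧ (∀ σ ∈ N, R σ = 1) ∧
        ∀ δ : D, R (δ : G) = r δ := by
  classical
  intro k
  induction k with
  | zero =>
    intro P _ _ _ hk
    exact absurd hk (by have := Nat.card_pos (α := P); omega)
  | succ k ih =>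
    intro P _ _ hP hk r hr
    rcases subsingleton_or_nontrivial P with hs | hs
    · refine ⟨1, IsLocallyConstant.const 1, fun σ _ => rfl, fun δ => Subsingleton.elim _ _⟩
    -- a central element of order two
    obtain ⟨z, hzo, hzc⟩ : ∃ z : P, orderOf z = 2 ∧ ∀ x, z * x = x * z := by
      have hb := hP.bot_lt_center
      have hP' : IsPGroup 2 (Subgroup.center P) := hP.to_subgroup _
      have hnt : Nontrivial (Subgroup.center P) := (Subgroup.nontrivial_iff_ne_bot _).2 hb.ne'
      have hdvd : 2 ∣ Nat.card (Subgroup.center P) := by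
        obtain ⟨m, hm⟩ := IsPGroup.iff_card.1 hP'
        have h1 : 1 < Nat.card (Subgroup.center P) := Finite.one_lt_card
        rw [hm] at h1 ⊢
        exact dvd_pow_self 2 (by rintro rfl; simp at h1)
      obtain ⟨z, hz⟩ := exists_prime_orderOf_dvd_card' 2 hdvd
      refine ⟨z, by rw [← hz]; exact Subgroup.orderOf_coe z, fun x => ?_⟩
      exact (Subgroup.mem_center_iff.1 z.2 x).symm
    have hz1 : z ≠ 1 := by
      rintro rfl
      simp at hzo
    have hz2 : z * z = 1 := by rw [← pow_two, ← hzo, pow_orderOf_eq_one]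
    let Z : Subgroup P :=
      { carrier := {w | w = 1 ∨ w = z}
        mul_mem' := by
          rintro a b (rfl | rfl) (rfl | rfl)
          · left; simp
          · right; simp
          · right; simp
          · left; exact hz2
        one_mem' := Or.inl rfl
        inv_mem' := by
          rintro a (rfl | rfl)
          · left; simp
          · right; exact inv_eq_of_mul_eq_one_left hz2 }
    have hZm : ∀ w, w ∈ Z ↔ w = 1 ∨ w = z := fun w => Iff.rfl
    have hZn : Z.Normal := by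
      constructor
      rintro n (rfl | rfl) g
      · left; simp
      · right
        show g * n * g⁻¹ = n
        rw [← hzc g, mul_assoc, mul_inv_cancel, mul_one]
    have hPq : IsPGroup 2 (P ⧸ Z) := hP.to_quotient Z
    have hcard : Nat.card (P ⧸ Z) ≤ k := by
      have h1 := Subgroup.card_eq_card_quotient_mul_card_subgroup Z
      have h2 : 1 < Nat.card Z := by
        have : Nontrivial Z := ⟨⟨⟨1, Or.inl rfl⟩, ⟨z, Or.inr rfl⟩, fun h => hz1 (congrArg Subtype.val h).symm⟩⟩
        exact Finite.one_lt_card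
      have h3 : 0 < Nat.card (P ⧸ Z) := Nat.card_pos
      have h4 : Nat.card (P ⧸ Z) < Nat.card P := by
        rw [h1]
        exact lt_mul_of_one_lt_right h3 h2
      omega
    obtain ⟨R', hR'l, hR'N, hR'D⟩ := ih (P ⧸ Z) hPq hcard ((QuotientGroup.mk' Z).comp r)
      (hr.comp (QuotientGroup.mk' Z))
    -- the kernel
    set U : Subgroup G := R'.ker with hUdef
    have hUo : IsOpen (U : Set G) := hR'l {1}
    have hNU : N ≤ U := fun n hn => hR'N n hn
    have hrU : ∀ δ : D, (δ : G) ∈ U → r δ = 1 ∨ r δ = z := by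
      intro δ hδ
      have h1 : R' (δ : G) = 1 := hδ
      rw [hR'D] at h1
      exact (QuotientGroup.eq_one_iff (r δ)).1 h1
    let φ : (U ⊓ D : Subgroup G) → ZMod 2 := fun σ => if r ⟨σ, σ.2.2⟩ = 1 then 0 else 1
    have hφr : ∀ σ : (U ⊓ D : Subgroup G), ez z (φ σ) = r ⟨σ, σ.2.2⟩ := by
      intro σ
      by_cases h : r ⟨σ, σ.2.2⟩ = 1
      · simp only [φ, if_pos h, ez_zero, h]
      · rcases hrU ⟨σ, σ.2.2⟩ σ.2.1 with h' | h'
        · exact absurd h' h
        · simp only [φ, if_neg h, h']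
          simp [ez]
    have hez_inj : ∀ a b : ZMod 2, ez z a = ez z b → a = b := by
      have h : ∀ x : ZMod 2, x = 0 ∨ x = 1 := by decide
      intro a b hab
      rcases h a with rfl | rfl <;> rcases h b with rfl | rfl
      · rfl
      · exact absurd (by simpa [ez] using hab.symm) hz1
      · exact absurd (by simpa [ez] using hab) hz1
      · rfl
    have hφ : φ ∈ HS (U ⊓ D : Subgroup G) := by
      constructor
      · have hc : Continuous fun σ : (U ⊓ D : Subgroup G) => (⟨σ, σ.2.2⟩ : D) := by fun_prop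
        have h1 : IsLocallyConstant fun σ : (U ⊓ D : Subgroup G) => r ⟨σ, σ.2.2⟩ :=
          hr.comp_continuous hc
        exact h1.comp (fun w => if w = 1 then (0 : ZMod 2) else 1)
      · intro x y
        apply hez_inj
        rw [ez_add hz2, hφr, hφr, hφr, ← map_mul]
        rfl
    obtain ⟨φ', hφ', hφ'N, hφ'D⟩ := H1 U hUo hNU φ hφ
    have hφ'm : ∀ x y : U, φ' (x * y) = φ' x + φ' y := hφ'.2
    have hφ'r : ∀ (δ : D) (h : (δ : G) ∈ U), ez z (φ' ⟨δ, h⟩) = r δ := by
      intro δ h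
      rw [hφ'D δ h ⟨h, δ.2⟩, hφr]
    have hUn : U.Normal := MonoidHom.normal_ker R'
    -- invariance
    have hinv : ∀ (ε : D) (u : U), φ' ⟨(ε : G)⁻¹ * u * ε, by
        simpa using hUn.conj_mem u u.2 (ε : G)⁻¹⟩ = φ' u := by
      intro ε u
      let cj : U → U := fun u => ⟨(ε : G)⁻¹ * u * ε, by
        simpa using hUn.conj_mem u u.2 (ε : G)⁻¹⟩
      have hcjm : ∀ x y, cj (x * y) = cj x * cj y := by
        intro x y
        apply Subtype.ext
        show (ε : G)⁻¹ * ((x : G) * y) * ε = ((ε : G)⁻¹ * x * ε) * ((ε : G)⁻¹ * y * ε)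
        group
      have hcjc : Continuous cj := by
        apply Continuous.subtype_mk
        fun_prop
      have hψ : (fun u => φ' (cj u)) - φ' ∈ HS U := by
        apply Submodule.sub_mem _ _ hφ'
        exact ⟨hφ'.1.comp_continuous hcjc, fun x y => by
          show φ' (cj (x * y)) = φ' (cj x) + φ' (cj y)
          rw [hcjm, hφ'm]⟩
      have h0 := eq_of_dense hUo hNU H2 hψ (fun σ hσ => by
        show φ' (cj σ) - φ' σ = 0
        rw [hφ'N σ hσ, hφ'N (cj σ) (by simpa using hNn.conj_mem σ hσ (ε : G)⁻¹), sub_zero])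
        (fun σ hσ => by
          show φ' (cj σ) - φ' σ = 0
          rw [sub_eq_zero]
          apply hez_inj
          have e1 := hφ'r ⟨σ, hσ⟩ σ.2
          have e2 := hφ'r (ε⁻¹ * ⟨σ, hσ⟩ * ε) (cj σ).2
          have e3 : (cj σ) = ⟨((ε⁻¹ * ⟨σ, hσ⟩ * ε : D) : G), (cj σ).2⟩ := rfl
          have e4 : σ = ⟨((⟨σ, hσ⟩ : D) : G), σ.2⟩ := rfl
          rw [e3, e2]
          conv_rhs => rw [e4, e1]
          rw [map_mul, map_mul, map_inv]
          have e5 : r ⟨σ, hσ⟩ * r ε = r ε * r ⟨σ, hσ⟩ := by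
            rw [← e1]
            exact ez_comm hzc _ _
          rw [mul_assoc, e5, ← mul_assoc, inv_mul_cancel, one_mul]) u
      exact sub_eq_zero.1 h0
    -- the extension
    choose dl hdD hdU using H2 U hUo hNU
    let Rf : G → P := fun g => r ⟨dl g, hdD g⟩ * ez z (φ' ⟨_, hdU g⟩)
    have hRf : ∀ (δ : D) (u : U), Rf (δ * u) = r δ * ez z (φ' u) := by
      intro δ u
      set g : G := δ * u with hg
      -- `w = (dl g)⁻¹ * δ` lies in `U ∩ D`
      set w : D := (⟨dl g, hdD g⟩ : D)⁻¹ * δ with hw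
      have hwU : (w : G) ∈ U := by
        have h1 : (w : G) = ((dl g)⁻¹ * g) * (u : G)⁻¹ := by
          rw [hw, hg]
          show (dl (δ * u))⁻¹ * (δ : G) = _
          group
        rw [h1]
        exact U.mul_mem (hdU g) (U.inv_mem u.2)
      have h2 : (⟨_, hdU g⟩ : U) = ⟨w, hwU⟩ * u := by
        apply Subtype.ext
        show (dl g)⁻¹ * g = (dl g)⁻¹ * δ * u
        rw [hg]
        group
      have h3 : δ = ⟨dl g, hdD g⟩ * w := by rw [hw]; group
      show r ⟨dl g, hdD g⟩ * ez z (φ' ⟨_, hdU g⟩) = _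
      rw [h2, hφ'm, ez_add hz2, hφ'r w hwU]
      conv_rhs => rw [h3, map_mul]
      rw [mul_assoc]
    have hex : ∀ g : G, ∃ (δ : D) (u : U), g = δ * u := fun g =>
      ⟨⟨dl g, hdD g⟩, ⟨_, hdU g⟩, by simp⟩
    have hRm : ∀ g h, Rf (g * h) = Rf g * Rf h := by
      intro g h
      obtain ⟨δ, u, rfl⟩ := hex g
      obtain ⟨ε, v, rfl⟩ := hex h
      have h1 : (δ : G) * u * (ε * v) = ((δ * ε : D) : G) *
          (((⟨(ε : G)⁻¹ * u * ε, by simpa using hUn.conj_mem u u.2 (ε : G)⁻¹⟩ : U) * v : U) : G) := by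
        show (δ : G) * u * (ε * v) = δ * ε * ((ε : G)⁻¹ * u * ε * v)
        group
      rw [h1, hRf, hRf, hRf, hφ'm, hinv, ez_add hz2, map_mul]
      have h2 := ez_comm hzc (φ' u) (r ε)
      calc r δ * r ε * (ez z (φ' u) * ez z (φ' v)) = r δ * (r ε * ez z (φ' u)) * ez z (φ' v) := by
            group
        _ = r δ * (ez z (φ' u) * r ε) * ez z (φ' v) := by rw [h2]
        _ = _ := by group
    have hR1 : ∀ u : U, Rf u = ez z (φ' u) := by
      intro u
      have := hRf 1 u
      rwa [map_one, one_mul, Subgroup.coe_one, one_mul] at this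
    have hφ'1 : φ' 1 = 0 := by
      have := hφ'm 1 1
      rw [mul_one] at this
      exact (left_eq_add.1 this)
    let R : G →* P := MonoidHom.mk' Rf hRm
    refine ⟨R, ?_, ?_, ?_⟩
    · -- locally constant
      have hV : IsOpen {u : U | φ' u = 0} := hφ'.1 {0}
      have hV' : IsOpen ((Subtype.val) '' {u : U | φ' u = 0} : Set G) :=
        hUo.isOpenEmbedding_subtypeVal.isOpenMap _ hV
      rw [IsLocallyConstant.iff_exists_open]
      intro g
      refine ⟨(fun x => g⁻¹ * x) ⁻¹' ((Subtype.val) '' {u : U | φ' u = 0}),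
        hV'.preimage (continuous_const_mul _), ⟨1, hφ'1, by simp⟩, ?_⟩
      rintro x ⟨u, hu, hux⟩
      have h1 : x = g * u := by rw [hux]; group
      show R x = R g
      rw [h1, map_mul]
      have h2 : R (u : G) = 1 := by
        show Rf u = 1
        rw [hR1, show φ' u = 0 from hu, ez_zero]
      rw [h2, mul_one]
    · intro σ hσ
      show Rf σ = 1
      have := hR1 ⟨σ, hNU hσ⟩
      rw [hφ'N _ hσ, ez_zero] at this
      exact this
    · intro δ
      show Rf δ = r δ
      have := hRf δ 1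
      rwa [hφ'1, ez_zero, Subgroup.coe_one, mul_one, mul_one] at this

/-- **Job F1.** -/
theorem stF1 : StE → StE0 → StF1 := by
  intro hE hE0 s d hs hF ι₀ P _ _ hP r hr
  obtain ⟨-, hE2, -⟩ := hE s d hs hF
  obtain ⟨-, -, -, -, h5⟩ := hE0 s d hs hF
  exact ext_hom (DDs ι₀) (Nf s) (fun U hU hN φ hφ => hE2 ι₀ U hU hN φ hφ)
    (fun U hU hN g => h5 ι₀ U hU hN g) (Nat.card P) P hP le_rfl r hr

end Pool.Agent.K7.H22.PS
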